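import Mathlib

namespace Pool.Agent.Lib.MP_0b0399_co

/-- `F` contains a weak copy of the poset `P`. -/
def ContainsWeak (P : Type) [PartialOrder P] {k d : ℕ} (F : Finset (Fin d → Fin k)) : Prop :=
  ∃ f : P → (Fin d → Fin k), Function.Injective f ∧ (∀ p, f p ∈ F) ∧ ∀ p q, p ≤ q → f p ≤ f q

/-- `F` contains a strong (induced) copy of the poset `P`. -/
def ContainsStrong (P : Type) [PartialOrder P] {k d : ℕ} (F : Finset (Fin d → Fin k)) : Prop :=
  ∃ f : P → (Fin d → Fin k), Function.Injective f ∧ (∀ p, f p ∈ F) ∧ ∀ p q, p ≤ q ↔ f p ≤ f q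

open Classical in
/-- Maximum size of a weak `P`-free family in the grid `[k]^d`. -/
noncomputable def La (k d : ℕ) (P : Type) [PartialOrder P] : ℕ :=
  (Finset.univ.filter fun F : Finset (Fin d → Fin k) => ¬ ContainsWeak P F).sup Finset.card

open Classical in
/-- Maximum size of a strong `P`-free family in the grid `[k]^d`. -/
noncomputable def LaStrong (k d : ℕ) (P : Type) [PartialOrder P] : ℕ :=
  (Finset.univ.filter fun F : Finset (Fin d → Fin k) => ¬ ContainsStrong P F).sup Finset.card

open Classical in
/-- Width of the grid `[k]^d`: the maximum size of an antichain. -/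
noncomputable def width (k d : ℕ) : ℕ :=
  (Finset.univ.filter fun F : Finset (Fin d → Fin k) =>
    IsAntichain (· ≤ ·) (F : Set (Fin d → Fin k))).sup Finset.card

end Pool.Agent.Lib.MP_0b0399_co
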