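import Mathlib

namespace Pool.Agent.Lib.MP_0b0399_co

/-- A symmetric chain decomposition of a ranked preorder. -/
structure SCD (P : Type) [Preorder P] (ρ : P → ℕ) (R : ℕ) where
  lo : P → ℕ
  elt : P → ℕ → P
  h1 : ∀ x, lo x ≤ ρ x
  h2 : ∀ x, ρ x + lo x ≤ R
  h3 : ∀ x, elt x (ρ x) = x
  h4 : ∀ x r, lo x ≤ r → r + lo x ≤ R → ρ (elt x r) = r
  h5 : ∀ x r, lo x ≤ r → r + lo x ≤ R → lo (elt x r) = lo x
  h6 : ∀ x r r', lo x ≤ r → r + lo x ≤ R → elt (elt x r) r' = elt x r'
  h7 : ∀ x r r', lo x ≤ r → r ≤ r' → r' + lo x ≤ R → elt x r ≤ elt x r'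

namespace SCD

variable {P Q : Type} [Preorder P] [Preorder Q] {ρ : P → ℕ} {R : ℕ}

def transport (S : SCD P ρ R) (e : P ≃o Q) (σ : Q → ℕ) (h : ∀ x, σ (e x) = ρ x) : SCD Q σ R where
  lo y := S.lo (e.symm y)
  elt y r := e (S.elt (e.symm y) r)
  h1 y := by have := S.h1 (e.symm y); rw [← h, e.apply_symm_apply] at this; exact this
  h2 y := by have := S.h2 (e.symm y); rw [← h, e.apply_symm_apply] at this; exact this
  h3 y := by
    have : σ y = ρ (e.symm y) := by rw [← h, e.apply_symm_apply]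
    rw [this, S.h3, e.apply_symm_apply]
  h4 y r a b := by rw [h]; exact S.h4 _ _ a b
  h5 y r a b := by rw [e.symm_apply_apply]; exact S.h5 _ _ a b
  h6 y r r' a b := by rw [e.symm_apply_apply, S.h6 _ _ _ a b]
  h7 y r r' a b c := e.monotone (S.h7 _ _ _ a b c)

def clip (b n : ℕ) : Fin (b + 1) := ⟨min n b, by omega⟩

theorem clip_val (b n : ℕ) : (clip b n).val = min n b := rfl

def jj (S : SCD P ρ R) {b : ℕ} (p : Fin (b + 1) × P) : ℕ := min p.1.val (R - S.lo p.2 - ρ p.2)

def pelt (S : SCD P ρ R) (b : ℕ) (x : P) (j r : ℕ) : Fin (b + 1) × P :=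
  if r + S.lo x ≤ R then (clip b j, S.elt x (r - j))
  else (clip b (r - (R - S.lo x - j)), S.elt x (R - S.lo x - j))

theorem pelt_key (S : SCD P ρ R) (b : ℕ) (x : P) (j r : ℕ) (hj : j ≤ b)
    (hj2 : j + 2 * S.lo x ≤ R) (h1 : S.lo x + j ≤ r) (h2 : r + (S.lo x + j) ≤ R + b) :
    ((S.pelt b x j r).1.val + ρ (S.pelt b x j r).2 = r) ∧
    S.lo (S.pelt b x j r).2 = S.lo x ∧ S.jj (S.pelt b x j r) = j ∧
    ∀ r', S.elt (S.pelt b x j r).2 r' = S.elt x r' := by
  unfold pelt
  split_ifs with h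
  · have a1 : S.lo x ≤ r - j := by omega
    have a2 : r - j + S.lo x ≤ R := by omega
    have e1 := S.h4 x _ a1 a2
    have e2 := S.h5 x _ a1 a2
    refine ⟨?_, e2, ?_, fun r' => S.h6 x _ _ a1 a2⟩
    · simp only [clip_val, e1]; omega
    · simp only [jj, clip_val, e1, e2]; omega
  · have a1 : S.lo x ≤ R - S.lo x - j := by omega
    have a2 : R - S.lo x - j + S.lo x ≤ R := by omega
    have e1 := S.h4 x _ a1 a2
    have e2 := S.h5 x _ a1 a2
    refine ⟨?_, e2, ?_, fun r' => S.h6 x _ _ a1 a2⟩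
    · simp only [clip_val, e1]; omega
    · simp only [jj, clip_val, e1, e2]; omega

theorem jj_le (S : SCD P ρ R) {b : ℕ} (p : Fin (b + 1) × P) :
    S.jj p ≤ b ∧ S.jj p + 2 * S.lo p.2 ≤ R := by
  have := S.h1 p.2
  have := S.h2 p.2
  have := p.1.isLt
  unfold jj
  omega

def prod (S : SCD P ρ R) (b : ℕ) :
    SCD (Fin (b + 1) × P) (fun p => p.1.val + ρ p.2) (R + b) where
  lo p := S.lo p.2 + S.jj p
  elt p r := S.pelt b p.2 (S.jj p) r
  h1 p := by
    have := S.h1 p.2
    unfold jj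
    omega
  h2 p := by
    have := S.h1 p.2
    have := S.h2 p.2
    have := p.1.isLt
    unfold jj
    omega
  h3 p := by
    obtain ⟨y, x⟩ := p
    have := S.h1 x
    have := S.h2 x
    have := y.isLt
    unfold pelt
    split_ifs with h
    · have e : S.jj (y, x) = y.val := by unfold jj; simp only at h ⊢; omega
      rw [e]
      refine Prod.ext (Fin.ext ?_) ?_
      · simp only [clip_val]; omega
      · simp only [Nat.add_sub_cancel_left, S.h3]
    · have e : S.jj (y, x) = R - S.lo x - ρ x := by unfold jj; simp only at h ⊢; omega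
      rw [e]
      have e2 : R - S.lo x - (R - S.lo x - ρ x) = ρ x := by omega
      simp only [e2]
      refine Prod.ext (Fin.ext ?_) ?_
      · simp only [clip_val]; omega
      · simp only [S.h3]
  h4 p r a c := (S.pelt_key b p.2 _ r (S.jj_le p).1 (S.jj_le p).2 a c).1
  h5 p r a c := by
    obtain ⟨-, e2, e3, -⟩ := S.pelt_key b p.2 _ r (S.jj_le p).1 (S.jj_le p).2 a c
    rw [e2, e3]
  h6 p r r' a c := by
    obtain ⟨-, e2, e3, e4⟩ := S.pelt_key b p.2 _ r (S.jj_le p).1 (S.jj_le p).2 a c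
    rw [e3]
    generalize S.pelt b p.2 (S.jj p) r = z at e2 e4 ⊢
    unfold pelt
    simp only [e4, e2]
  h7 p r r' a c d := by
    obtain ⟨k1, k2⟩ := S.jj_le p
    unfold pelt
    split_ifs with h h' h'
    · exact ⟨le_rfl, S.h7 _ _ _ (by omega) (by omega) (by omega)⟩
    · refine ⟨?_, S.h7 _ _ _ (by omega) (by omega) (by omega)⟩
      change (clip b _).val ≤ (clip b _).val
      simp only [clip_val]; omega
    · omega
    · refine ⟨?_, le_rfl⟩
      change (clip b _).val ≤ (clip b _).val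
      simp only [clip_val]; omega

theorem card_le (S : SCD P ρ R) [Fintype P] [DecidableEq P] (F : Finset P)
    (hF : IsAntichain (· ≤ ·) (F : Set P)) :
    F.card ≤ (Finset.univ.filter fun x => ρ x = R / 2).card := by
  refine Finset.card_le_card_of_injOn (fun x => S.elt x (R / 2)) ?_ ?_
  · intro x _
    have := S.h1 x
    have := S.h2 x
    simp only [Finset.coe_filter, Finset.mem_univ, true_and, Set.mem_ofPred_eq]
    exact S.h4 x _ (by omega) (by omega)
  · intro x hx y hy hxy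
    simp only at hxy
    have x1 := S.h1 x
    have x2 := S.h2 x
    have y1 := S.h1 y
    have y2 := S.h2 y
    have hlo : S.lo x = S.lo y := by
      rw [← S.h5 x (R / 2) (by omega) (by omega), hxy, S.h5 y (R / 2) (by omega) (by omega)]
    have he : ∀ r, S.elt x r = S.elt y r := fun r => by
      rw [← S.h6 x (R / 2) r (by omega) (by omega), hxy, S.h6 y (R / 2) r (by omega) (by omega)]
    by_contra hne
    rcases le_total (ρ x) (ρ y) with h | h
    · have := S.h7 x (ρ x) (ρ y) x1 h (by omega)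
      rw [S.h3, he, S.h3] at this
      exact hF hx hy hne this
    · have := S.h7 y (ρ y) (ρ x) y1 h (by omega)
      rw [S.h3, ← he, S.h3] at this
      exact hF hy hx (Ne.symm hne) this

end SCD

def rk {d k : ℕ} (x : Fin d → Fin k) : ℕ := ∑ i, (x i).val

noncomputable def gridSCD (b : ℕ) : (d : ℕ) → SCD (Fin d → Fin (b + 1)) rk (d * b)
  | 0 =>
    { lo := fun _ => 0
      elt := fun x _ => x
      h1 := fun _ => Nat.zero_le _
      h2 := fun x => by simp [rk]
      h3 := fun _ => rfl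
      h4 := fun x r _ h => by simp [rk] at h ⊢; omega
      h5 := fun _ _ _ _ => rfl
      h6 := fun _ _ _ _ _ => rfl
      h7 := fun _ _ _ _ _ _ => le_rfl }
  | d + 1 => by
    have S := ((gridSCD b d).prod b).transport (Fin.consOrderIso fun _ : Fin (d + 1) => Fin (b + 1))
      rk (by
        rintro ⟨y, x⟩
        simp [rk, Fin.sum_univ_succ, Fin.consOrderIso, Fin.consEquiv])
    rw [Nat.succ_mul]
    exact S

theorem antichain_le (b d : ℕ) (F : Finset (Fin d → Fin (b + 1)))
    (hF : IsAntichain (· ≤ ·) (F : Set (Fin d → Fin (b + 1)))) :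
    F.card ≤ (Finset.univ.filter fun x : Fin d → Fin (b + 1) => rk x = d * b / 2).card :=
  (gridSCD b d).card_le F hF

end Pool.Agent.Lib.MP_0b0399_co
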