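import Pool.Agent.Lib.MP_0b0399_co.Defs
import Pool.Agent.Lib.MP_0b0399_co.SCD

namespace Pool.Agent.Lib.MP_0b0399_co

open Finset

theorem mod_arith (T gi gj : ℕ)
    (hi : gi = 0 ∨ gi = 2 ∨ gi = 11 ∨ gi = 3 ∨ gi = 10)
    (hj : gj = 0 ∨ gj = 2 ∨ gj = 11 ∨ gj = 3 ∨ gj = 10) (hij : gi ≠ gj)
    (h0 : T % 13 ≠ 0)
    (h1 : (T + gi) % 13 = 0 ∨ (T + gi) % 13 = 2 ∨ (T + gi) % 13 = 11 ∨ (T + gi) % 13 = 3 ∨
      (T + gi) % 13 = 10)
    (h2 : (T + gj) % 13 = 0 ∨ (T + gj) % 13 = 2 ∨ (T + gj) % 13 = 11 ∨ (T + gj) % 13 = 3 ∨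
      (T + gj) % 13 = 10) :
    (T + gi + gj) % 13 = 0 := by
  rcases hi with rfl | rfl | rfl | rfl | rfl <;> rcases hj with rfl | rfl | rfl | rfl | rfl <;> omega

def phi {k : ℕ} (x : Fin 5 → Fin k) : ℕ :=
  2 * (x 1).val + 11 * (x 2).val + 3 * (x 3).val + 10 * (x 4).val

def Mid (t : ℕ) : Prop := t = 0 ∨ t = 2 ∨ t = 11 ∨ t = 3 ∨ t = 10

instance : DecidablePred Mid := fun t => by unfold Mid; infer_instance

def Cond (m r t : ℕ) : Prop :=
  (r = m ∧ t % 13 ≠ 0) ∨ (r = m + 1 ∧ Mid (t % 13)) ∨ (r = m + 2 ∧ t % 13 ≠ 0)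

instance (m r t : ℕ) : Decidable (Cond m r t) := by unfold Cond; infer_instance

def fam (k m s : ℕ) : Finset (Fin 5 → Fin k) := univ.filter fun x => Cond m (rk x) (phi x + s)

def lev (k r : ℕ) : Finset (Fin 5 → Fin k) := univ.filter fun x => rk x = r

theorem rk5 {k : ℕ} (x : Fin 5 → Fin k) :
    rk x = (x 0).val + (x 1).val + (x 2).val + (x 3).val + (x 4).val := by
  simp [rk, Fin.sum_univ_five]

theorem le5 {k : ℕ} {x y : Fin 5 → Fin k} (h : x ≤ y) :
    (x 0).val ≤ (y 0).val ∧ (x 1).val ≤ (y 1).val ∧ (x 2).val ≤ (y 2).val ∧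
      (x 3).val ≤ (y 3).val ∧ (x 4).val ≤ (y 4).val :=
  ⟨h 0, h 1, h 2, h 3, h 4⟩

theorem ne5 {k : ℕ} {x y : Fin 5 → Fin k} (h : x ≠ y) :
    ¬ ((x 0).val = (y 0).val ∧ (x 1).val = (y 1).val ∧ (x 2).val = (y 2).val ∧
      (x 3).val = (y 3).val ∧ (x 4).val = (y 4).val) := by
  rintro ⟨h0, h1, h2, h3, h4⟩
  apply h
  funext i
  fin_cases i
  · exact Fin.ext h0
  · exact Fin.ext h1
  · exact Fin.ext h2
  · exact Fin.ext h3
  · exact Fin.ext h4

theorem rk_lt {k : ℕ} {x y : Fin 5 → Fin k} (h : x ≤ y) (hne : x ≠ y) : rk x < rk y := by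
  have := le5 h
  have := ne5 hne
  rw [rk5, rk5]
  omega

theorem step5 (a0 a1 a2 a3 a4 p0 p1 p2 p3 p4 : ℕ)
    (h : a0 ≤ p0 ∧ a1 ≤ p1 ∧ a2 ≤ p2 ∧ a3 ≤ p3 ∧ a4 ≤ p4)
    (hs : p0 + p1 + p2 + p3 + p4 = a0 + a1 + a2 + a3 + a4 + 1) :
    (p0 = a0 + 1 ∧ p1 = a1 ∧ p2 = a2 ∧ p3 = a3 ∧ p4 = a4) ∨
    (p0 = a0 ∧ p1 = a1 + 1 ∧ p2 = a2 ∧ p3 = a3 ∧ p4 = a4) ∨
    (p0 = a0 ∧ p1 = a1 ∧ p2 = a2 + 1 ∧ p3 = a3 ∧ p4 = a4) ∨
    (p0 = a0 ∧ p1 = a1 ∧ p2 = a2 ∧ p3 = a3 + 1 ∧ p4 = a4) ∨
    (p0 = a0 ∧ p1 = a1 ∧ p2 = a2 ∧ p3 = a3 ∧ p4 = a4 + 1) := by omega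

theorem diamond_phi {k : ℕ} {a p q e : Fin 5 → Fin k} (hap : a ≤ p) (haq : a ≤ q) (hpe : p ≤ e)
    (hqe : q ≤ e) (hpq : p ≠ q) (r1 : rk p = rk a + 1) (r2 : rk q = rk a + 1)
    (r3 : rk e = rk a + 2) :
    ∃ gi gj, Mid gi ∧ Mid gj ∧ gi ≠ gj ∧ phi p = phi a + gi ∧ phi q = phi a + gj ∧
      phi e = phi a + gi + gj := by
  have h1 := le5 hap
  have h2 := le5 haq
  have h3 := le5 hpe
  have h4 := le5 hqe
  have h5 := ne5 hpq
  simp only [rk5] at r1 r2 r3
  refine ⟨phi p - phi a, phi q - phi a, ?_⟩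
  unfold Mid phi
  rcases step5 _ _ _ _ _ _ _ _ _ _ h1 r1 with hp | hp | hp | hp | hp <;>
    rcases step5 _ _ _ _ _ _ _ _ _ _ h2 r2 with hq | hq | hq | hq | hq <;> omega

theorem fam_free (k m s : ℕ) : ¬ ContainsWeak (Bool × Bool) (fam k m s) := by
  rintro ⟨f, hinj, hmem, hmono⟩
  have hap : f (false, false) ≤ f (true, false) := hmono _ _ (by decide)
  have haq : f (false, false) ≤ f (false, true) := hmono _ _ (by decide)
  have hpe : f (true, false) ≤ f (true, true) := hmono _ _ (by decide)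
  have hqe : f (false, true) ≤ f (true, true) := hmono _ _ (by decide)
  have l1 := rk_lt hap (hinj.ne (by decide))
  have l2 := rk_lt haq (hinj.ne (by decide))
  have l3 := rk_lt hpe (hinj.ne (by decide))
  have l4 := rk_lt hqe (hinj.ne (by decide))
  have ca := (mem_filter.1 (hmem (false, false))).2
  have cp := (mem_filter.1 (hmem (true, false))).2
  have cq := (mem_filter.1 (hmem (false, true))).2
  have ce := (mem_filter.1 (hmem (true, true))).2
  unfold Cond at ca cp cq ce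
  have ra : rk (f (false, false)) = m := by omega
  have rp : rk (f (true, false)) = m + 1 := by omega
  have rq : rk (f (false, true)) = m + 1 := by omega
  have re : rk (f (true, true)) = m + 2 := by omega
  obtain ⟨gi, gj, m1, m2, hne, e1, e2, e3⟩ := diamond_phi hap haq hpe hqe (hinj.ne (by decide))
    (by omega) (by omega) (by omega)
  have da : (phi (f (false, false)) + s) % 13 ≠ 0 := by omega
  have dp : Mid ((phi (f (true, false)) + s) % 13) := by
    rcases cp with h | h | h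
    · omega
    · exact h.2
    · omega
  have dq : Mid ((phi (f (false, true)) + s) % 13) := by
    rcases cq with h | h | h
    · omega
    · exact h.2
    · omega
  have de : (phi (f (true, true)) + s) % 13 ≠ 0 := by omega
  apply de
  have := mod_arith (phi (f (false, false)) + s) gi gj m1 m2 hne da
    (by rw [e1, Nat.add_right_comm] at dp; exact dp) (by rw [e2, Nat.add_right_comm] at dq; exact dq)
  rw [e3]
  omega

theorem count_ne (t : ℕ) : ∑ s ∈ range 13, (if (t + s) % 13 ≠ 0 then 1 else 0) = 12 := by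
  have key : ∀ r < 13, ∑ s ∈ range 13, (if (r + s) % 13 ≠ 0 then 1 else 0) = 12 := by decide
  rw [← key (t % 13) (Nat.mod_lt _ (by norm_num))]
  refine sum_congr rfl fun s _ => ?_
  rw [Nat.mod_add_mod]

theorem count_mid (t : ℕ) : ∑ s ∈ range 13, (if Mid ((t + s) % 13) then 1 else 0) = 5 := by
  have key : ∀ r < 13, ∑ s ∈ range 13, (if Mid ((r + s) % 13) then 1 else 0) = 5 := by decide
  rw [← key (t % 13) (Nat.mod_lt _ (by norm_num))]
  refine sum_congr rfl fun s _ => ?_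
  simp only [Nat.mod_add_mod]

theorem count_cond (m r t : ℕ) : ∑ s ∈ range 13, (if Cond m r (t + s) then 1 else 0) =
    12 * (if r = m then 1 else 0) + 5 * (if r = m + 1 then 1 else 0) +
      12 * (if r = m + 2 then 1 else 0) := by
  by_cases h0 : r = m
  · subst h0
    have := count_ne t
    simp only [Cond] at this ⊢
    simpa using this
  · by_cases h1 : r = m + 1
    · subst h1
      have := count_mid t
      simp only [Cond] at this ⊢
      simpa using this
    · by_cases h2 : r = m + 2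
      · subst h2
        have := count_ne t
        simp only [Cond] at this ⊢
        simpa using this
      · simp [Cond, h0, h1, h2]

theorem sum_fam (k m : ℕ) : ∑ s ∈ range 13, (fam k m s).card =
    12 * (lev k m).card + 5 * (lev k (m + 1)).card + 12 * (lev k (m + 2)).card := by
  simp only [fam, lev, card_filter]
  rw [sum_comm]
  simp only [count_cond, sum_add_distrib, ← mul_sum]

theorem card_fixed (k r c : ℕ) :
    ((lev k r).filter fun x => (x 0).val = c).card ≤ k ^ 3 := by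
  have : k ^ 3 = (univ : Finset (Fin k × Fin k × Fin k)).card := by
    simp only [card_univ, Fintype.card_prod, Fintype.card_fin]; ring
  rw [this]
  refine card_le_card_of_injOn (fun x => (x 1, x 2, x 3)) (fun _ _ => mem_coe.2 (mem_univ _)) ?_
  intro x hx y hy hxy
  simp only [lev, coe_filter, mem_filter, mem_univ, true_and, Set.mem_ofPred_eq, rk5] at hx hy
  simp only [Prod.mk.injEq] at hxy
  obtain ⟨e1, e2, e3⟩ := hxy
  by_contra hne
  apply ne5 hne
  rw [e1, e2, e3] at hx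
  refine ⟨by omega, by rw [e1], by rw [e2], by rw [e3], by omega⟩

theorem lev_up (b r : ℕ) : (lev (b + 1) r).card ≤ (lev (b + 1) (r + 1)).card + (b + 1) ^ 3 := by
  rw [← card_filter_add_card_filter_not (s := lev (b + 1) r) (fun x => (x 0).val = b), add_comm]
  refine Nat.add_le_add ?_ (card_fixed _ _ _)
  refine card_le_card_of_injOn (fun x => Function.update x 0 (SCD.clip b ((x 0).val + 1))) ?_ ?_
  · intro x hx
    simp only [lev, coe_filter, mem_filter, mem_univ, true_and, Set.mem_ofPred_eq, rk5] at hx ⊢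
    have := (x 0).isLt
    simp [SCD.clip_val]
    omega
  · intro x hx y hy hxy
    simp only [lev, coe_filter, mem_filter, mem_univ, true_and, Set.mem_ofPred_eq, rk5] at hx hy
    have e1 := congrFun hxy 1
    have e2 := congrFun hxy 2
    have e3 := congrFun hxy 3
    have e4 := congrFun hxy 4
    simp at e1 e2 e3 e4
    by_contra hne
    apply ne5 hne
    rw [e1, e2, e3, e4] at hx
    refine ⟨by omega, by rw [e1], by rw [e2], by rw [e3], by rw [e4]⟩

theorem lev_down (b r : ℕ) : (lev (b + 1) (r + 1)).card ≤ (lev (b + 1) r).card + (b + 1) ^ 3 := by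
  rw [← card_filter_add_card_filter_not (s := lev (b + 1) (r + 1)) (fun x => (x 0).val = 0),
    add_comm]
  refine Nat.add_le_add ?_ (card_fixed _ _ _)
  refine card_le_card_of_injOn (fun x => Function.update x 0 (SCD.clip b ((x 0).val - 1))) ?_ ?_
  · intro x hx
    simp only [lev, coe_filter, mem_filter, mem_univ, true_and, Set.mem_ofPred_eq, rk5] at hx ⊢
    have := (x 0).isLt
    simp [SCD.clip_val]
    omega
  · intro x hx y hy hxy
    simp only [lev, coe_filter, mem_filter, mem_univ, true_and, Set.mem_ofPred_eq, rk5] at hx hy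
    have e1 := congrFun hxy 1
    have e2 := congrFun hxy 2
    have e3 := congrFun hxy 3
    have e4 := congrFun hxy 4
    simp at e1 e2 e3 e4
    by_contra hne
    apply ne5 hne
    rw [e1, e2, e3, e4] at hx
    refine ⟨by omega, by rw [e1], by rw [e2], by rw [e3], by rw [e4]⟩

theorem lev_le_width (k r : ℕ) : (lev k r).card ≤ width k 5 := by
  unfold width
  refine le_sup (f := Finset.card) ?_
  simp only [mem_filter, mem_univ, true_and]
  intro x hx y hy hne hle
  simp only [lev, coe_filter, mem_univ, true_and, Set.mem_ofPred_eq] at hx hy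
  have := rk_lt hle hne
  omega

theorem width_le (b : ℕ) : width (b + 1) 5 ≤ (lev (b + 1) (5 * b / 2)).card := by
  unfold width
  refine Finset.sup_le fun F hF => ?_
  simp only [mem_filter, mem_univ, true_and] at hF
  exact antichain_le b 5 F hF

theorem pow_le_width (b : ℕ) : (b + 1) ^ 5 ≤ 5 * (b + 1) * width (b + 1) 5 := by
  have h1 : (univ : Finset (Fin 5 → Fin (b + 1))).card =
      ∑ r ∈ range (5 * (b + 1)), (lev (b + 1) r).card := by
    refine card_eq_sum_card_fiberwise (f := rk) ?_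
    intro x _
    have := (x 0).isLt
    have := (x 1).isLt
    have := (x 2).isLt
    have := (x 3).isLt
    have := (x 4).isLt
    simp only [coe_range, Set.mem_Iio, rk5]
    omega
  have h2 : (univ : Finset (Fin 5 → Fin (b + 1))).card = (b + 1) ^ 5 := by simp
  rw [← h2, h1]
  calc ∑ r ∈ range (5 * (b + 1)), (lev (b + 1) r).card
      ≤ ∑ _r ∈ range (5 * (b + 1)), width (b + 1) 5 := sum_le_sum fun r _ => lev_le_width _ r
    _ = 5 * (b + 1) * width (b + 1) 5 := by simp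

theorem fam_le_La (k m s : ℕ) : (fam k m s).card ≤ La k 5 (Bool × Bool) := by
  unfold La
  refine le_sup (f := Finset.card) ?_
  simp only [mem_filter, mem_univ, true_and]
  exact fam_free k m s

theorem La_le_LaStrong (k d : ℕ) (P : Type) [PartialOrder P] : La k d P ≤ LaStrong k d P := by
  unfold La LaStrong
  refine Finset.sup_mono fun F hF => ?_
  simp only [mem_filter, mem_univ, true_and] at hF ⊢
  rintro ⟨f, h1, h2, h3⟩
  exact hF ⟨f, h1, h2, fun p q h => (h3 p q).1 h⟩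

theorem main_ineq (k : ℕ) (hk : 1200 ≤ k) :
    0 < width k 5 ∧ 289 * width k 5 ≤ 130 * La k 5 (Bool × Bool) := by
  obtain ⟨b, rfl⟩ : ∃ b, k = b + 1 := ⟨k - 1, by omega⟩
  obtain ⟨m, hm⟩ : ∃ m, 5 * b / 2 = m + 1 := ⟨5 * b / 2 - 1, by omega⟩
  have h1 := width_le b
  rw [hm] at h1
  have h2 := lev_up b (m + 1)
  have h3 := lev_down b m
  have h4 := sum_fam (b + 1) m
  have h5 : ∑ s ∈ range 13, (fam (b + 1) m s).card ≤ 13 * La (b + 1) 5 (Bool × Bool) := by
    calc ∑ s ∈ range 13, (fam (b + 1) m s).card ≤ ∑ _s ∈ range 13, La (b + 1) 5 (Bool × Bool) :=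
          sum_le_sum fun s _ => fam_le_La _ _ s
      _ = 13 * La (b + 1) 5 (Bool × Bool) := by simp
  have h6 := pow_le_width b
  have h7 : (b + 1) * (b + 1) ^ 3 ≤ 5 * width (b + 1) 5 := by
    refine Nat.le_of_mul_le_mul_left ?_ (Nat.succ_pos b)
    calc (b + 1) * ((b + 1) * (b + 1) ^ 3) = (b + 1) ^ 5 := by ring
      _ ≤ 5 * (b + 1) * width (b + 1) 5 := h6
      _ = (b + 1) * (5 * width (b + 1) 5) := by ring
  have h8 : 1200 * (b + 1) ^ 3 ≤ (b + 1) * (b + 1) ^ 3 := Nat.mul_le_mul_right _ hk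
  have h9 : 0 < (b + 1) ^ 3 := by positivity
  have h10 : m + 1 + 1 = m + 2 := rfl
  rw [h10] at h2
  omega

theorem not_tendsto (g : ℕ → ℕ) (hg : ∀ k, La k 5 (Bool × Bool) ≤ g k) :
    ¬ Filter.Tendsto (fun k : ℕ => (g k : ℝ) / (width k 5 : ℝ)) Filter.atTop
      (nhds (2 + 1 / ((5 : ℕ) : ℝ))) := by
  intro h
  have h1 : ∀ᶠ k in Filter.atTop, (g k : ℝ) / (width k 5 : ℝ) < 221 / 100 :=
    h.eventually (gt_mem_nhds (by norm_num))
  obtain ⟨k, hk1, hk2⟩ := (h1.and (Filter.eventually_ge_atTop 1200)).exists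
  obtain ⟨p1, p2⟩ := main_ineq k hk2
  have p3 : 289 * width k 5 ≤ 130 * g k := p2.trans (Nat.mul_le_mul_left _ (hg k))
  have q1 : (0 : ℝ) < width k 5 := by exact_mod_cast p1
  have q3 : (289 : ℝ) * width k 5 ≤ 130 * g k := by exact_mod_cast p3
  rw [div_lt_iff₀ q1] at hk1
  linarith

end Pool.Agent.Lib.MP_0b0399_co
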